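import Pool.Agent.GLE.StmtsA

/-!
# Squad GLE, row GEN (helper69): generating function of the Faber polynomials
-/

namespace Pool.Agent.GLE.H69

open Polynomial MeasureTheory Pool.Agent.GLE Finset

/-- power series with scalar coefficients -/
theorem hasFPS {a : ℕ → ℂ} {f : ℂ → ℂ} {ρ : ℝ} (hρ : 0 < ρ)
    (h : ∀ t : ℂ, ‖t‖ < ρ → HasSum (fun n => a n * t ^ n) (f t)) :
    HasFPowerSeriesOnBall f (FormalMultilinearSeries.ofScalars ℂ a) 0 (ENNReal.ofReal ρ) := by
  refine ⟨?_, ENNReal.ofReal_pos.2 hρ, ?_⟩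
  · refine ENNReal.le_of_forall_nnreal_lt fun r hr => ?_
    have hr' : (r : ℝ) < ρ := by
      rw [← ENNReal.ofReal_coe_nnreal] at hr
      exact (ENNReal.ofReal_lt_ofReal_iff hρ).1 hr
    have hrn : ‖(((r : ℝ) : ℂ))‖ = (r : ℝ) := by simp
    apply FormalMultilinearSeries.le_radius_of_summable_norm
    have h1 : ‖(((r : ℝ) : ℂ))‖ < ρ := by rwa [hrn]
    have h2 := (h ((r : ℝ) : ℂ) h1).summable.norm
    refine h2.congr fun n => ?_
    rw [FormalMultilinearSeries.ofScalars_norm, norm_mul, norm_pow, hrn]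
  · intro y hy
    have hy' : ‖y‖ < ρ := by
      rw [Metric.mem_eball, edist_zero_right, ← ofReal_norm, ENNReal.ofReal_lt_ofReal_iff hρ] at hy
      exact hy
    rw [zero_add]
    refine (h y hy').congr_fun ?_
    intro n
    rw [FormalMultilinearSeries.ofScalars_apply_eq, smul_eq_mul]

theorem coeff_unique {a b : ℕ → ℂ} {f : ℂ → ℂ} {ρ : ℝ} (hρ : 0 < ρ)
    (ha : ∀ t : ℂ, ‖t‖ < ρ → HasSum (fun n => a n * t ^ n) (f t))
    (hb : ∀ t : ℂ, ‖t‖ < ρ → HasSum (fun n => b n * t ^ n) (f t)) (n : ℕ) : a n = b n := by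
  have h := (hasFPS hρ ha).hasFPowerSeriesAt.eq_formalMultilinearSeries
    (hasFPS hρ hb).hasFPowerSeriesAt
  have h2 := congrArg (fun p : FormalMultilinearSeries ℂ ℂ ℂ => p.coeff n) h
  simpa [FormalMultilinearSeries.coeff_ofScalars] using h2

theorem diffOn {a : ℕ → ℂ} {f : ℂ → ℂ} {ρ : ℝ} (hρ : 0 < ρ)
    (ha : ∀ t : ℂ, ‖t‖ < ρ → HasSum (fun n => a n * t ^ n) (f t)) :
    DifferentiableOn ℂ f (Metric.ball 0 ρ) := by
  have h := (hasFPS hρ ha).differentiableOn
  refine h.mono ?_
  intro y hy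
  rw [Metric.mem_ball, dist_zero_right] at hy
  rw [Metric.mem_eball, edist_zero_right, ← ofReal_norm, ENNReal.ofReal_lt_ofReal_iff hρ]
  exact hy

theorem taylor {f : ℂ → ℂ} {ρ : ℝ} (hf : DifferentiableOn ℂ f (Metric.ball 0 ρ)) :
    ∀ t : ℂ, ‖t‖ < ρ → HasSum (fun n => (((n.factorial : ℕ) : ℂ)⁻¹ * iteratedDeriv n f 0) * t ^ n)
      (f t) := by
  intro t ht
  have hz : t ∈ Metric.ball (0 : ℂ) ρ := by rwa [Metric.mem_ball, dist_zero_right]
  have h := Complex.hasSum_taylorSeries_on_ball hf hz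
  refine h.congr_fun ?_
  intro n
  rw [sub_zero, smul_eq_mul, smul_eq_mul]
  ring

theorem der {a : ℕ → ℂ} {f : ℂ → ℂ} {ρ : ℝ} (hρ : 0 < ρ)
    (ha : ∀ t : ℂ, ‖t‖ < ρ → HasSum (fun n => a n * t ^ n) (f t)) :
    ∀ t : ℂ, ‖t‖ < ρ → HasSum (fun n : ℕ => ((n : ℂ) * a n) * t ^ n) (t * deriv f t) := by
  have hd := diffOn hρ ha
  have hd2 : DifferentiableOn ℂ (deriv f) (Metric.ball 0 ρ) := hd.deriv Metric.isOpen_ball
  have h1 := taylor hd
  have h2 := taylor hd2
  have h3 : ∀ n, a n = ((n.factorial : ℕ) : ℂ)⁻¹ * iteratedDeriv n f 0 :=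
    fun n => coeff_unique hρ ha h1 n
  intro t ht
  have h4 := (h2 t ht).mul_left t
  have h5 : HasSum (fun n : ℕ => (((n + 1 : ℕ) : ℂ) * a (n + 1)) * t ^ (n + 1))
      (t * deriv f t) := by
    refine h4.congr_fun ?_
    intro n
    rw [h3 (n + 1), iteratedDeriv_succ' (n := n), Nat.factorial_succ]
    have h6 : ((n + 1 : ℕ) : ℂ) ≠ 0 := by exact_mod_cast Nat.succ_ne_zero n
    have h7 : ((n.factorial : ℕ) : ℂ) ≠ 0 := by exact_mod_cast n.factorial_ne_zero
    push_cast
    push_cast at h6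
    field_simp
    ring
  have h8 := (hasSum_nat_add_iff (f := fun n : ℕ => ((n : ℂ) * a n) * t ^ n) 1).1 h5
  simpa using h8

theorem mulSum {a b : ℕ → ℂ} {x y t : ℂ} (ha : HasSum (fun n => a n * t ^ n) x)
    (hb : HasSum (fun n => b n * t ^ n) y) :
    HasSum (fun n => (∑ kl ∈ antidiagonal n, a kl.1 * b kl.2) * t ^ n) (x * y) := by
  have h1 := ha.summable.norm
  have h2 := hb.summable.norm
  have h3 := tsum_mul_tsum_eq_tsum_sum_antidiagonal_of_summable_norm h1 h2
  have h4 := (summable_norm_sum_mul_antidiagonal_of_summable_norm h1 h2).of_norm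
  have h5 := h4.hasSum
  rw [← h3, ha.tsum_eq, hb.tsum_eq] at h5
  refine h5.congr_fun ?_
  intro n
  rw [Finset.sum_mul]
  refine Finset.sum_congr rfl fun kl hkl => ?_
  rw [← Finset.HasAntidiagonal.mem_antidiagonal.mp hkl, pow_add]
  ring

theorem al_zero (c : ℂ) (L : ℕ) : al c L 0 = 1 := by
  cases L with
  | zero => simp [al]
  | succ L => simp [al, sqc]

theorem gen (hInj : InjStmt) : GenStmt := by
  intro L c x hc hx
  obtain ⟨hsm, hit, -⟩ := hInj L c hc
  have hN : (2 ^ L : ℕ) ≠ 0 := by positivity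
  let ρ : ℝ := (1 / 16 : ℝ) ^ (((2 ^ L : ℕ) : ℝ)⁻¹)
  have hρ : 0 < ρ := Real.rpow_pos_of_pos (by norm_num) _
  have hρN : ρ ^ (2 ^ L) = 1 / 16 := Real.rpow_inv_natCast_pow (by norm_num) hN
  have hdom : ∀ t : ℂ, 16 * ‖t‖ ^ (2 ^ L) < 1 ↔ ‖t‖ < ρ := by
    intro t
    rw [← pow_lt_pow_iff_left₀ (norm_nonneg t) hρ.le hN, hρN]
    constructor
    · intro h
      linarith
    · intro h
      linarith
  have hA : ∀ t : ℂ, ‖t‖ < ρ → HasSum (fun n => al c L n * t ^ n) (As c L t) := by
    intro t ht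
    exact (hsm t ((hdom t).2 ht)).hasSum
  have hA0 : As c L 0 = 1 := by
    have h1 := hA 0 (by rwa [norm_zero])
    have h2 : HasSum (fun n => al c L n * (0 : ℂ) ^ n) (al c L 0 * (0 : ℂ) ^ 0) := by
      refine hasSum_single 0 ?_
      intro n hn
      rw [zero_pow hn, mul_zero]
    rw [h1.unique h2, al_zero, pow_zero, mul_one]
  have hne : ∀ t : ℂ, ‖t‖ < ρ → As c L t - x * t ≠ 0 := by
    intro t ht h0
    by_cases ht0 : t = 0
    · rw [ht0, hA0, mul_zero, sub_zero] at h0
      exact one_ne_zero h0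
    · have h1 : As c L t / t = x := by
        rw [div_eq_iff ht0]
        exact sub_eq_zero.mp h0
      have h2 := hit t ht0 ((hdom t).2 ht)
      rw [h1] at h2
      rw [h2, norm_pow, norm_div, norm_one, div_pow, one_pow] at hx
      have h3 := (hdom t).2 ht
      have h4 : 0 < ‖t‖ ^ (2 ^ L) := pow_pos (norm_pos_iff.mpr ht0) _
      rw [div_le_iff₀ h4] at hx
      linarith
  have hAd : DifferentiableOn ℂ (As c L) (Metric.ball 0 ρ) := diffOn hρ hA
  have hAd2 : DifferentiableOn ℂ (deriv (As c L)) (Metric.ball 0 ρ) := hAd.deriv Metric.isOpen_ball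
  let G : ℂ → ℂ := fun t => (As c L t - t * deriv (As c L) t) / (As c L t - x * t)
  have hG : DifferentiableOn ℂ G (Metric.ball 0 ρ) := by
    refine DifferentiableOn.div ?_ ?_ ?_
    · exact hAd.sub (differentiableOn_id.mul hAd2)
    · exact hAd.sub (differentiableOn_const x |>.mul differentiableOn_id)
    · intro t ht
      exact hne t (by rwa [Metric.mem_ball, dist_zero_right] at ht)
  let g : ℕ → ℂ := fun n => ((n.factorial : ℕ) : ℂ)⁻¹ * iteratedDeriv n G 0
  have hg : ∀ t : ℂ, ‖t‖ < ρ → HasSum (fun n => g n * t ^ n) (G t) := taylor hG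
  -- the equation
  let α : ℕ → ℂ := fun n => al c L n - (if n = 1 then x else 0)
  have hα : ∀ t : ℂ, ‖t‖ < ρ → HasSum (fun n => α n * t ^ n) (As c L t - x * t) := by
    intro t ht
    have h1 : HasSum (fun n : ℕ => (if n = 1 then x else 0) * t ^ n) (x * t) := by
      have h2 : HasSum (fun n : ℕ => (if n = 1 then x else 0) * t ^ n)
          ((if (1 : ℕ) = 1 then x else 0) * t ^ 1) := by
        refine hasSum_single 1 ?_
        intro n hn
        rw [if_neg hn, zero_mul]
      simpa using h2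
    refine ((hA t ht).sub h1).congr_fun ?_
    intro n
    show (al c L n - (if n = 1 then x else 0)) * t ^ n = _
    ring
  have hL : ∀ t : ℂ, ‖t‖ < ρ → HasSum (fun n => (∑ kl ∈ antidiagonal n, α kl.1 * g kl.2) * t ^ n)
      (As c L t - t * deriv (As c L) t) := by
    intro t ht
    have h1 := mulSum (hα t ht) (hg t ht)
    have h2 : (As c L t - x * t) * G t = As c L t - t * deriv (As c L) t :=
      mul_div_cancel₀ _ (hne t ht)
    rwa [h2] at h1
  have hR : ∀ t : ℂ, ‖t‖ < ρ → HasSum (fun n : ℕ => (al c L n - (n : ℂ) * al c L n) * t ^ n)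
      (As c L t - t * deriv (As c L) t) := by
    intro t ht
    refine ((hA t ht).sub (der hρ hA t ht)).congr_fun ?_
    intro n
    ring
  have heq := coeff_unique hρ hL hR
  have hg0 : g 0 = 1 := by
    have h1 := heq 0
    simp only [Finset.Nat.antidiagonal_zero, Finset.sum_singleton, Nat.cast_zero, zero_mul, sub_zero]
      at h1
    have h2 : α 0 = 1 := by
      show al c L 0 - (if (0 : ℕ) = 1 then x else 0) = 1
      rw [al_zero, if_neg (by norm_num), sub_zero]
    rw [h2, al_zero, one_mul] at h1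
    exact h1
  have hgs : ∀ n, g (n + 1) = x * g n - ∑ i : Fin n, al c L (i + 1) * g (n - i) -
      ((n + 1 : ℕ) : ℂ) * al c L (n + 1) := by
    intro n
    have h1 := heq (n + 1)
    have h2 : α 0 = 1 := by
      show al c L 0 - (if (0 : ℕ) = 1 then x else 0) = 1
      rw [al_zero, if_neg (by norm_num), sub_zero]
    rw [Finset.Nat.antidiagonal_succ, Finset.sum_cons, Finset.sum_map, h2, one_mul,
      Finset.Nat.sum_antidiagonal_eq_sum_range_succ_mk] at h1
    have h3 : ∑ k ∈ Finset.range n.succ, α (k + 1) * g (n - k) =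
        ∑ k ∈ Finset.range (n + 1), al c L (k + 1) * g (n - k) - x * g n := by
      rw [Finset.sum_range_succ', Finset.sum_range_succ']
      have h4 : ∀ k, α (k + 1 + 1) = al c L (k + 1 + 1) := by
        intro k
        show al c L (k + 1 + 1) - (if (k + 1 + 1 : ℕ) = 1 then x else 0) = al c L (k + 1 + 1)
        rw [if_neg (by omega), sub_zero]
      have h5 : α (0 + 1) = al c L (0 + 1) - x := by
        show al c L (0 + 1) - (if (0 + 1 : ℕ) = 1 then x else 0) = al c L (0 + 1) - x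
        rw [if_pos rfl]
      rw [h5, Finset.sum_congr rfl fun k _ => by rw [h4 k]]
      simp only [Nat.sub_zero]
      ring
    have h6 : ∑ i : Fin n, al c L (i + 1) * g (n - i) =
        ∑ k ∈ Finset.range n, al c L (k + 1) * g (n - k) :=
      Fin.sum_univ_eq_sum_range (fun k => al c L (k + 1) * g (n - k)) n
    have h7 : ∑ k ∈ Finset.range (n + 1), al c L (k + 1) * g (n - k) =
        ∑ k ∈ Finset.range n, al c L (k + 1) * g (n - k) + al c L (n + 1) := by
      rw [Finset.sum_range_succ, Nat.sub_self, hg0, mul_one]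
    have h8 : g (n + 1) + ∑ k ∈ Finset.range n.succ, α (k + 1) * g (n - k) =
        al c L (n + 1) - ((n + 1 : ℕ) : ℂ) * al c L (n + 1) := h1
    rw [h3, h7] at h8
    rw [h6]
    linear_combination h8
  have hFb : ∀ n, Fb c x L n = g n := by
    intro n
    induction n using Nat.strong_induction_on with
    | _ n ih =>
      cases n with
      | zero => rw [hg0, Fb]
      | succ n =>
        rw [hgs n, Fb, ih n (by omega)]
        congr 2
        refine Finset.sum_congr rfl fun i _ => ?_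
        rw [ih (n - i) (by omega)]
  refine ⟨G, ?_⟩
  intro t ht
  have ht' := (hdom t).1 ht
  refine ⟨?_, hne t ht', ?_⟩
  · refine (hg t ht').congr_fun ?_
    intro n
    rw [hFb]
  · intro ht0
    have hAt : DifferentiableAt ℂ (As c L) t :=
      hAd.differentiableAt (Metric.isOpen_ball.mem_nhds (by rwa [Metric.mem_ball, dist_zero_right]))
    have h1 : HasDerivAt (fun s => As c L s / s - x)
        ((deriv (As c L) t * t - As c L t * 1) / t ^ 2) t :=
      (hAt.hasDerivAt.div (hasDerivAt_id t) ht0).sub_const x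
    refine ⟨h1.differentiableAt, ?_⟩
    rw [h1.deriv]
    have h2 := hne t ht'
    have h3 : As c L t / t - x = (As c L t - x * t) / t := by
      field_simp
    rw [h3]
    show _ = -((As c L t - t * deriv (As c L) t) / (As c L t - x * t) / t)
    field_simp
    ring

end Pool.Agent.GLE.H69
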