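import Pool.Agent.GLE.StmtsA

/-!
# Squad GLE, row HAL (helper69): the Hadamard inequality in `L^2(ℂ) ⊕ ℝ`
-/

namespace Pool.Agent.GLE.H69

open Polynomial MeasureTheory Pool.Agent.GLE

/-- the vector of a pair -/
noncomputable def vec (u : ℂ → ℂ) (hu : MemLp u 2 (volume : Measure ℂ)) (s : ℝ) :
    WithLp 2 (Lp ℂ 2 (volume : Measure ℂ) × ℝ) :=
  WithLp.toLp 2 (hu.toLp u, s)

theorem inner_vec (u v : ℂ → ℂ) (hu : MemLp u 2 (volume : Measure ℂ))
    (hv : MemLp v 2 (volume : Measure ℂ)) (s t : ℝ) :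
    (inner ℝ (vec u hu s) (vec v hv t) : ℝ) =
      (∫ z, ((starRingEnd ℂ) (v z) * u z).re) + s * t := by
  rw [WithLp.prod_inner_apply]
  show (inner ℝ (hu.toLp u) (hv.toLp v) : ℝ) + (inner ℝ s t : ℝ) = _
  rw [MeasureTheory.L2.inner_def]
  have h1 : ∫ a, (inner ℝ ((hu.toLp u : ℂ → ℂ) a) ((hv.toLp v : ℂ → ℂ) a) : ℝ) =
      ∫ z, ((starRingEnd ℂ) (v z) * u z).re := by
    refine integral_congr_ae ?_
    filter_upwards [hu.coeFn_toLp, hv.coeFn_toLp] with z h2 h3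
    rw [h2, h3, Complex.inner]
    simp only [Complex.mul_re, Complex.conj_re, Complex.conj_im]
    ring
  rw [h1]
  congr 1
  simp [mul_comm]

theorem norm_vec (u : ℂ → ℂ) (hu : MemLp u 2 (volume : Measure ℂ)) (s : ℝ) :
    ‖vec u hu s‖ ^ 2 = (∫ z, ‖u z‖ ^ 2) + s ^ 2 := by
  rw [← real_inner_self_eq_norm_sq, inner_vec, ← sq]
  congr 1
  refine integral_congr_ae (Filter.Eventually.of_forall fun z => ?_)
  show ((starRingEnd ℂ) (u z) * u z).re = ‖u z‖ ^ 2
  rw [mul_comm, Complex.mul_conj, Complex.ofReal_re, Complex.normSq_eq_norm_sq]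

theorem hal (hHad : HadStmt) : HalStmt := by
  intro n u v s t hu hv
  have h1 := hHad (WithLp 2 (Lp ℂ 2 (volume : Measure ℂ) × ℝ)) n
    (fun j => vec (u j) (hu j) (s j)) (fun i => vec (v i) (hv i) (t i))
  have h2 : (Matrix.of fun j i : Fin n =>
      (inner ℝ (vec (u j) (hu j) (s j)) (vec (v i) (hv i) (t i)) : ℝ)) =
      (Matrix.of fun j i : Fin n =>
      (∫ z, ((starRingEnd ℂ) (v i z) * u j z).re) + s j * t i) := by
    ext j i
    exact inner_vec _ _ _ _ _ _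
  rw [h2] at h1
  have h3 := pow_le_pow_left₀ (abs_nonneg _) h1 2
  rw [sq_abs, mul_pow, ← Finset.prod_pow, ← Finset.prod_pow] at h3
  simp only [norm_vec] at h3
  exact h3

end Pool.Agent.GLE.H69
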